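import Mathlib.Analysis.SpecialFunctions.Exp
import Mathlib.Analysis.SpecialFunctions.Trigonometric.Basic
import Mathlib.Topology.Algebra.InfiniteSum.Basic
import Mathlib.LinearAlgebra.Matrix.Notation
import Mathlib.Analysis.Complex.Basic

/-!
# Complex discrete Gaussians: definitions
-/

set_option autoImplicit false

open Complex

namespace Pool.Agent.Q60.DG

/-- The set `ℍ_g`: `B` is a symmetric complex matrix whose real part is positive definite. -/
def IsParam {g : ℕ} (B : Matrix (Fin g) (Fin g) ℂ) : Prop :=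
  B.transpose = B ∧ ∀ x : Fin g → ℝ, x ≠ 0 → 0 < ∑ i, ∑ j, x i * (B i j).re * x j

/-- `exp (2 π (nᵗ u - (1/2) nᵗ B n))`. -/
noncomputable def wt {g : ℕ} (u : Fin g → ℂ) (B : Matrix (Fin g) (Fin g) ℂ) (n : Fin g → ℤ) : ℂ :=
  cexp (2 * Real.pi * (∑ i, (n i : ℂ) * u i - 1 / 2 * ∑ i, ∑ j, (n i : ℂ) * B i j * (n j : ℂ)))

/-- The theta function `θ(u, B)`. -/
noncomputable def theta {g : ℕ} (u : Fin g → ℂ) (B : Matrix (Fin g) (Fin g) ℂ) : ℂ :=
  ∑' n : Fin g → ℤ, wt u B n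

/-- The discrete Gaussian `p_(u,B)`, a complex-valued function on `ℤ^g`. -/
noncomputable def gauss {g : ℕ} (u : Fin g → ℂ) (B : Matrix (Fin g) (Fin g) ℂ) (n : Fin g → ℤ) : ℂ :=
  wt u B n / theta u B

/-- The moment `m_α(u, B)`. -/
noncomputable def moment {g : ℕ} (u : Fin g → ℂ) (B : Matrix (Fin g) (Fin g) ℂ) (α : Fin g → ℕ) : ℂ :=
  ∑' n : Fin g → ℤ, (∏ i, (n i : ℂ) ^ α i) * gauss u B n

end Pool.Agent.Q60.DG
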