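import Pool.Agent.Q60.DG.Prod
import Mathlib.Algebra.MvPolynomial.Eval
import Mathlib.Algebra.MvPolynomial.Degrees
import Mathlib.Analysis.SpecialFunctions.Exp
import Mathlib.Analysis.Real.Pi.Bounds

/-!
# Discrete Gaussians on a glued lattice

The lattice `L = ℤ^g ∪ (ℤ^g + (1/2, …, 1/2))` with the weights `exp (π i ∑ y_j - π ∑ y_j²)`: on the second
coset the weight is a product of `g` functions which are odd about their centre, so that all sums of
polynomials of degree less than `g` against this part vanish.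
-/

set_option autoImplicit false

open Complex

namespace Pool.Agent.Q60.DG

variable {m : ℕ}

/-- the coordinates `y` of `n`: `y_0 = n_0 / 2`, `y_i = n_i + n_0 / 2` -/
noncomputable def yy (n : Fin (m + 1) → ℤ) (k : Fin (m + 1)) : ℂ :=
  (n 0 : ℂ) / 2 + if k = 0 then 0 else (n k : ℂ)

/-- the matrix of this map -/
noncomputable def MM (m : ℕ) (k i : Fin (m + 1)) : ℝ :=
  (if i = 0 then 1 / 2 else 0) + (if k = i ∧ i ≠ 0 then 1 else 0)

lemma MM_apply (R : Type*) [Field R] [CharZero R] (M : Fin (m + 1) → Fin (m + 1) → R)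
    (hM : ∀ k i, M k i = (if i = 0 then 1 / 2 else 0) + (if k = i ∧ i ≠ 0 then 1 else 0))
    (x : Fin (m + 1) → R) (k : Fin (m + 1)) :
    ∑ i, M k i * x i = x 0 / 2 + if k = 0 then 0 else x k := by
  simp only [hM, add_mul, Finset.sum_add_distrib]
  congr 1
  · rw [Finset.sum_eq_single (0 : Fin (m + 1))]
    · simp; ring
    · intro i _ hi; simp [hi]
    · simp
  · rw [Finset.sum_eq_single k]
    · by_cases h : k = 0 <;> simp [h]
    · intro i _ hi; simp [Ne.symm hi]
    · simp

/-- the Gram matrix -/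
noncomputable def BB (m : ℕ) : Matrix (Fin (m + 1)) (Fin (m + 1)) ℂ :=
  Matrix.of fun i j => ((∑ k, MM m k i * MM m k j : ℝ) : ℂ)

/-- the linear part -/
noncomputable def uu (m : ℕ) : Fin (m + 1) → ℂ := fun i => I / 2 * ∑ k, (MM m k i : ℂ)

lemma isParam_BB : IsParam (BB m) := by
  refine ⟨?_, fun x hx => ?_⟩
  · ext i j
    simp only [BB, Matrix.transpose_apply, Matrix.of_apply]
    congr 1
    exact Finset.sum_congr rfl fun k _ => mul_comm _ _
  · have h1 : ∑ i, ∑ j, x i * (BB m i j).re * x j = ∑ k, (∑ i, MM m k i * x i) ^ 2 := by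
      have : ∀ i j, (BB m i j).re = ∑ k, MM m k i * MM m k j := fun i j => by
        simp only [BB, Matrix.of_apply, Complex.ofReal_re]
      simp only [this, sq, Finset.sum_mul_sum]
      conv_rhs => rw [Finset.sum_comm]
      refine Finset.sum_congr rfl fun i _ => ?_
      conv_rhs => rw [Finset.sum_comm]
      refine Finset.sum_congr rfl fun j _ => ?_
      rw [Finset.mul_sum, Finset.sum_mul]
      exact Finset.sum_congr rfl fun k _ => by ring
    rw [h1]
    have h2 : ∀ k, ∑ i, MM m k i * x i = x 0 / 2 + if k = 0 then 0 else x k := fun k =>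
      MM_apply ℝ (MM m) (fun _ _ => rfl) x k
    simp only [h2]
    by_contra hneg
    push Not at hneg
    have h3 : ∀ k, x 0 / 2 + (if k = 0 then 0 else x k) = 0 := by
      intro k
      have h4 := Finset.sum_nonneg (s := Finset.univ)
        (f := fun k : Fin (m + 1) => (x 0 / 2 + if k = 0 then 0 else x k) ^ 2) fun k _ => sq_nonneg _
      have h5 := (Finset.sum_eq_zero_iff_of_nonneg (s := Finset.univ)
        (f := fun k : Fin (m + 1) => (x 0 / 2 + if k = 0 then 0 else x k) ^ 2)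
        (fun k _ => sq_nonneg _)).1 (le_antisymm hneg h4) k (Finset.mem_univ k)
      exact pow_eq_zero_iff (two_ne_zero) |>.1 h5
    apply hx
    have h0 : x 0 = 0 := by
      have := h3 0
      simp at this
      exact this
    funext k
    by_cases hk : k = 0
    · rw [hk, h0]; rfl
    · have := h3 k
      rw [h0, if_neg hk] at this
      simpa using this

/-- one factor of the weight -/
noncomputable def gg (y : ℂ) : ℂ := cexp (Real.pi * I * y - Real.pi * y ^ 2)

lemma wt_eq (n : Fin (m + 1) → ℤ) : wt (uu m) (BB m) n = ∏ k, gg (yy n k) := by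
  have hy : ∀ k, ∑ i, (MM m k i : ℂ) * (n i : ℂ) = yy n k := by
    intro k
    refine MM_apply ℂ (fun k i => (MM m k i : ℂ)) (fun k i => ?_) (fun i => (n i : ℂ)) k
    unfold MM
    push_cast
    congr 1
    · split_ifs <;> simp
    · split_ifs <;> simp
  have h1 : ∑ i, (n i : ℂ) * uu m i = I / 2 * ∑ k, yy n k := by
    simp only [← hy, uu, Finset.mul_sum]
    rw [Finset.sum_comm]
    exact Finset.sum_congr rfl fun i _ => Finset.sum_congr rfl fun k _ => by ring
  have h2 : ∑ i, ∑ j, (n i : ℂ) * BB m i j * (n j : ℂ) = ∑ k, yy n k ^ 2 := by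
    simp only [← hy, BB, Matrix.of_apply, sq, Finset.sum_mul_sum]
    conv_rhs => rw [Finset.sum_comm]
    refine Finset.sum_congr rfl fun i _ => ?_
    conv_rhs => rw [Finset.sum_comm]
    refine Finset.sum_congr rfl fun j _ => ?_
    push_cast
    rw [Finset.mul_sum, Finset.sum_mul]
    exact Finset.sum_congr rfl fun k _ => by ring
  rw [wt, h1, h2]
  unfold gg
  rw [← Complex.exp_sum]
  congr 1
  rw [Finset.sum_sub_distrib, ← Finset.mul_sum, ← Finset.mul_sum]
  ring

/-- the second linear part -/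
noncomputable def uu' (m : ℕ) : Fin (m + 1) → ℂ := fun i => uu m i + if i = 0 then I / 2 else 0

lemma wt'_eq (n : Fin (m + 1) → ℤ) : wt (uu' m) (BB m) n = cexp (Real.pi * I * n 0) * wt (uu m) (BB m) n := by
  have h1 : ∑ i, (n i : ℂ) * uu' m i = ∑ i, (n i : ℂ) * uu m i + I / 2 * n 0 := by
    simp only [uu', mul_add, Finset.sum_add_distrib]
    congr 1
    rw [Finset.sum_eq_single (0 : Fin (m + 1))]
    · simp; ring
    · intro i _ hi; simp [hi]
    · simp
  rw [wt, wt, h1, ← Complex.exp_add]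
  congr 1
  ring

lemma exp_even {k : ℤ} (hk : Even k) : cexp (Real.pi * I * k) = 1 := by
  obtain ⟨r, hr⟩ := hk
  rw [hr]
  have : (Real.pi * I * ((r + r : ℤ) : ℂ) : ℂ) = r * (2 * Real.pi * I) := by push_cast; ring
  rw [this, Complex.exp_int_mul_two_pi_mul_I]

lemma exp_odd {k : ℤ} (hk : Odd k) : cexp (Real.pi * I * k) = -1 := by
  obtain ⟨r, hr⟩ := hk
  rw [hr]
  have : (Real.pi * I * ((2 * r + 1 : ℤ) : ℂ) : ℂ) = r * (2 * Real.pi * I) + Real.pi * I := by
    push_cast; ring
  rw [this, Complex.exp_add, Complex.exp_int_mul_two_pi_mul_I, Complex.exp_pi_mul_I, one_mul]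

/-- the parametrisation of the vectors with `n 0` congruent to `e` -/
def par (e : ℤ) (z : Fin (m + 1) → ℤ) : Fin (m + 1) → ℤ :=
  fun i => if i = 0 then 2 * z 0 + e else z i - z 0

lemma par_injective (e : ℤ) : Function.Injective (par (m := m) e) := by
  intro z z' h
  have h0 : z 0 = z' 0 := by
    have := congrFun h 0
    simp [par] at this
    exact this
  funext i
  by_cases hi : i = 0
  · rw [hi, h0]
  · have := congrFun h i
    simp [par, hi, h0] at this
    exact this

lemma mem_range_par {e : ℤ} {n : Fin (m + 1) → ℤ} (h : Even (n 0 - e)) : n ∈ Set.range (par (m := m) e) := by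
  obtain ⟨r, hr⟩ := h
  refine ⟨fun i => if i = 0 then r else n i + r, ?_⟩
  funext i
  by_cases hi : i = 0
  · simp [par, hi]; linarith
  · simp [par, hi]

lemma yy_par (e : ℤ) (z : Fin (m + 1) → ℤ) (k : Fin (m + 1)) : yy (par e z) k = z k + e / 2 := by
  unfold yy par
  by_cases hk : k = 0
  · simp [hk]; ring
  · simp [hk]; ring

/-- one factor on the second coset -/
noncomputable def psi (e : ℤ) (z : ℤ) : ℂ := gg (z + e / 2)

lemma norm_psi (e z : ℤ) : ‖psi e z‖ = Real.exp (-Real.pi * ((z : ℝ) + e / 2) ^ 2) := by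
  unfold psi gg
  rw [Complex.norm_exp]
  congr 1
  have : (Real.pi * I * ((z : ℂ) + e / 2) - Real.pi * ((z : ℂ) + e / 2) ^ 2) =
      (((Real.pi * ((z : ℝ) + e / 2) : ℝ) : ℂ)) * I + ((-Real.pi * ((z : ℝ) + e / 2) ^ 2 : ℝ) : ℂ) := by
    push_cast; ring
  rw [this, Complex.add_re, Complex.mul_I_re, Complex.ofReal_im, Complex.ofReal_re]
  simp

lemma summable_psi (b : ℕ) (e : ℤ) : Summable fun z : ℤ => ‖(z : ℂ) ^ b * psi e z‖ := by
  -- compare with a Gaussian
  set r : ℝ := Real.exp (-Real.pi / 2) with hr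
  have hr0 : 0 ≤ r := (Real.exp_pos _).le
  have hr1 : r < 1 := by
    rw [hr, Real.exp_lt_one_iff]
    linarith [Real.pi_pos]
  have h := (summable_int b hr0 hr1).mul_left (Real.exp (Real.pi * (e / 2) ^ 2))
  refine Summable.of_nonneg_of_le (fun z => norm_nonneg _) (fun z => ?_) h
  rw [norm_mul, norm_pow, Complex.norm_intCast, norm_psi]
  have h1 : r ^ (z.natAbs ^ 2) = Real.exp (-Real.pi / 2 * (z : ℝ) ^ 2) := by
    rw [hr, ← Real.exp_nat_mul]
    congr 1
    have h4 := congrArg (Int.cast : ℤ → ℝ) (Int.natAbs_sq z)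
    rw [Int.cast_pow, Int.cast_pow, Int.cast_natCast] at h4
    rw [Nat.cast_pow, h4]
    ring
  rw [h1]
  have h2 : Real.exp (-Real.pi * ((z : ℝ) + e / 2) ^ 2) ≤
      Real.exp (Real.pi * (e / 2) ^ 2) * Real.exp (-Real.pi / 2 * (z : ℝ) ^ 2) := by
    rw [← Real.exp_add]
    apply Real.exp_le_exp.2
    nlinarith [mul_nonneg Real.pi_pos.le (sq_nonneg ((z : ℝ) / 2 + e / 2)), Real.pi_pos,
      mul_nonneg Real.pi_pos.le (sq_nonneg ((z : ℝ) + 2 * e))]
  calc |(z : ℝ)| ^ b * Real.exp (-Real.pi * ((z : ℝ) + e / 2) ^ 2)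
      ≤ |(z : ℝ)| ^ b * (Real.exp (Real.pi * (e / 2) ^ 2) * Real.exp (-Real.pi / 2 * (z : ℝ) ^ 2)) :=
        mul_le_mul_of_nonneg_left h2 (by positivity)
    _ = _ := by ring

/-- the function is odd about its centre -/
lemma psi_one_neg (z : ℤ) : psi 1 (-1 - z) = - psi 1 z := by
  unfold psi gg
  have h1 : (Real.pi * I * ((((-1 - z : ℤ)) : ℂ) + (1 : ℤ) / 2) - Real.pi * ((((-1 - z : ℤ)) : ℂ) + (1 : ℤ) / 2) ^ 2) =
      (Real.pi * I * ((z : ℂ) + (1 : ℤ) / 2) - Real.pi * ((z : ℂ) + (1 : ℤ) / 2) ^ 2) +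
        Real.pi * I * ((-1 - 2 * z : ℤ) : ℂ) := by
    push_cast; ring
  rw [h1, Complex.exp_add, exp_odd ⟨-1 - z, by ring⟩]
  ring

lemma tsum_psi_one : ∑' z : ℤ, psi 1 z = 0 := by
  have h : ∑' z : ℤ, psi 1 z = - ∑' z : ℤ, psi 1 z := by
    conv_lhs => rw [← (Equiv.subLeft (-1 : ℤ)).tsum_eq]
    rw [← tsum_neg]
    refine tsum_congr fun z => ?_
    rw [← psi_one_neg]
    rfl
  have h2 : (2 : ℂ) * ∑' z : ℤ, psi 1 z = 0 := by linear_combination h
  simpa using h2

end Pool.Agent.Q60.DG
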