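import Pool.Agent.Q60.DG.Glue
import Mathlib.Topology.Algebra.InfiniteSum.NatInt
import Mathlib.Analysis.SpecificLimits.Normed

set_option autoImplicit false

open Complex

namespace Pool.Agent.Q60.DG

variable {m : ℕ}

lemma summable_poly (e : ℤ) (P : MvPolynomial (Fin (m + 1)) ℂ) :
    Summable fun z : Fin (m + 1) → ℤ => MvPolynomial.eval (fun i => (z i : ℂ)) P * ∏ i, psi e (z i) := by
  have h : (fun z : Fin (m + 1) → ℤ => MvPolynomial.eval (fun i => (z i : ℂ)) P * ∏ i, psi e (z i)) =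
      fun z => ∑ d ∈ P.support, P.coeff d * ∏ i, ((z i : ℂ) ^ d i * psi e (z i)) := by
    funext z
    rw [MvPolynomial.eval_eq', Finset.sum_mul]
    exact Finset.sum_congr rfl fun d _ => by rw [Finset.prod_mul_distrib]; ring
  rw [h]
  refine summable_sum fun d _ => Summable.mul_left _ ?_
  exact (summable_norm_prod (fun i (k : ℤ) => (k : ℂ) ^ d i * psi e k)
    (fun i => summable_psi (d i) e)).of_norm

lemma tsum_poly (P : MvPolynomial (Fin (m + 1)) ℂ) (hP : P.totalDegree ≤ m) :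
    ∑' z : Fin (m + 1) → ℤ, MvPolynomial.eval (fun i => (z i : ℂ)) P * ∏ i, psi 1 (z i) = 0 := by
  have h : (fun z : Fin (m + 1) → ℤ => MvPolynomial.eval (fun i => (z i : ℂ)) P * ∏ i, psi 1 (z i)) =
      fun z => ∑ d ∈ P.support, P.coeff d * ∏ i, ((z i : ℂ) ^ d i * psi 1 (z i)) := by
    funext z
    rw [MvPolynomial.eval_eq', Finset.sum_mul]
    exact Finset.sum_congr rfl fun d _ => by rw [Finset.prod_mul_distrib]; ring
  have hs : ∀ d ∈ P.support, Summable fun z : Fin (m + 1) → ℤ =>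
      P.coeff d * ∏ i, ((z i : ℂ) ^ d i * psi 1 (z i)) := fun d _ => Summable.mul_left _
    (summable_norm_prod (fun i (k : ℤ) => (k : ℂ) ^ d i * psi 1 k) (fun i => summable_psi (d i) 1)).of_norm
  rw [h, Summable.tsum_finsetSum hs]
  refine Finset.sum_eq_zero fun d hd => ?_
  rw [tsum_mul_left, tsum_prod (fun i (k : ℤ) => (k : ℂ) ^ d i * psi 1 k) (fun i => summable_psi (d i) 1)]
  -- one exponent vanishes
  have h1 : ∃ i, d i = 0 := by
    by_contra hne
    push Not at hne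
    have h2 : (d.sum fun _ e => e) ≤ m := (MvPolynomial.le_totalDegree hd).trans hP
    rw [Finsupp.sum_fintype _ _ (fun _ => rfl)] at h2
    have h3 : ∑ i : Fin (m + 1), 1 ≤ ∑ i, d i := Finset.sum_le_sum fun i _ => Nat.one_le_iff_ne_zero.2 (hne i)
    simp at h3
    omega
  obtain ⟨i, hi⟩ := h1
  rw [Finset.prod_eq_zero (Finset.mem_univ i), mul_zero]
  simp only [hi, pow_zero, one_mul]
  exact tsum_psi_one

/-- the polynomial giving `n ^ α` in the coordinates `z` -/
noncomputable def PP (e : ℤ) (α : Fin (m + 1) → ℕ) : MvPolynomial (Fin (m + 1)) ℂ :=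
  ∏ i, (if i = 0 then MvPolynomial.C 2 * MvPolynomial.X 0 + MvPolynomial.C (e : ℂ) else
    MvPolynomial.X i - MvPolynomial.X 0) ^ α i

lemma PP_eval (e : ℤ) (α : Fin (m + 1) → ℕ) (z : Fin (m + 1) → ℤ) :
    MvPolynomial.eval (fun i => (z i : ℂ)) (PP e α) = ∏ i, (par e z i : ℂ) ^ α i := by
  unfold PP
  rw [map_prod]
  refine Finset.prod_congr rfl fun i _ => ?_
  rw [map_pow]
  congr 1
  by_cases hi : i = 0
  · simp [hi, par]
  · simp [hi, par]

lemma PP_degree (e : ℤ) (α : Fin (m + 1) → ℕ) : (PP e α).totalDegree ≤ ∑ i, α i := by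
  unfold PP
  refine (MvPolynomial.totalDegree_finsetProd _ _).trans (Finset.sum_le_sum fun i _ => ?_)
  refine (MvPolynomial.totalDegree_pow _ _).trans ?_
  have h1 : (if i = 0 then MvPolynomial.C 2 * MvPolynomial.X 0 + MvPolynomial.C (e : ℂ) else
    MvPolynomial.X i - MvPolynomial.X 0 : MvPolynomial (Fin (m + 1)) ℂ).totalDegree ≤ 1 := by
    split_ifs
    · refine (MvPolynomial.totalDegree_add _ _).trans (max_le ?_ ?_)
      · refine (MvPolynomial.totalDegree_mul _ _).trans ?_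
        simp
      · exact (MvPolynomial.totalDegree_C _).le.trans (Nat.zero_le _)
    · refine (MvPolynomial.totalDegree_sub _ _).trans (max_le ?_ ?_) <;> simp
  calc α i * _ ≤ α i * 1 := Nat.mul_le_mul_left _ h1
    _ = α i := mul_one _

lemma wt_par (e : ℤ) (z : Fin (m + 1) → ℤ) : wt (uu m) (BB m) (par e z) = ∏ i, psi e (z i) := by
  rw [wt_eq]
  exact Finset.prod_congr rfl fun k _ => by rw [yy_par]; rfl

/-- the sum over the vectors with `n 0 ≡ e` modulo `2` -/
lemma tsum_par (e : ℤ) (F : (Fin (m + 1) → ℤ) → ℂ) (hF : ∀ n, ¬ Even (n 0 - e) → F n = 0) :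
    ∑' n, F n = ∑' z, F (par e z) := by
  rw [(par_injective (m := m) e).tsum_eq]
  intro n hn
  by_contra h
  exact hn (hF n fun h' => h (mem_range_par h'))

lemma summable_par_iff (e : ℤ) (F : (Fin (m + 1) → ℤ) → ℂ) (hF : ∀ n, ¬ Even (n 0 - e) → F n = 0) :
    Summable F ↔ Summable fun z => F (par e z) := by
  rw [← (par_injective (m := m) e).summable_iff]
  · rfl
  · intro n hn
    exact hF n fun h' => hn (mem_range_par h')

/-- the part of the sum given by the vectors with `n 0 ≡ e` modulo `2` -/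
noncomputable def part (e : ℤ) (α : Fin (m + 1) → ℕ) (n : Fin (m + 1) → ℤ) : ℂ :=
  if Even (n 0 - e) then (∏ i, (n i : ℂ) ^ α i) * wt (uu m) (BB m) n else 0

lemma part_par (e : ℤ) (α : Fin (m + 1) → ℕ) (z : Fin (m + 1) → ℤ) :
    part e α (par e z) = MvPolynomial.eval (fun i => (z i : ℂ)) (PP e α) * ∏ i, psi e (z i) := by
  rw [part, if_pos, PP_eval, wt_par]
  simp [par]

lemma summable_part (e : ℤ) (α : Fin (m + 1) → ℕ) : Summable (part e α) := by
  rw [summable_par_iff e _ (fun n hn => by rw [part, if_neg hn])]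
  simp only [part_par]
  exact summable_poly e _

lemma tsum_part_one (α : Fin (m + 1) → ℕ) (hα : ∑ i, α i ≤ m) : ∑' n, part 1 α n = 0 := by
  rw [tsum_par 1 _ (fun n hn => by rw [part, if_neg hn])]
  simp only [part_par]
  exact tsum_poly _ ((PP_degree 1 α).trans hα)

lemma term_eq (α : Fin (m + 1) → ℕ) (n : Fin (m + 1) → ℤ) :
    (∏ i, (n i : ℂ) ^ α i) * wt (uu m) (BB m) n = part 0 α n + part 1 α n ∧
    (∏ i, (n i : ℂ) ^ α i) * wt (uu' m) (BB m) n = part 0 α n - part 1 α n := by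
  unfold part
  rw [wt'_eq]
  rcases Int.even_or_odd (n 0) with h | h
  · have h1 : Even (n 0 - 0) := by simpa using h
    have h2 : ¬ Even (n 0 - 1) := by
      rw [Int.not_even_iff_odd]
      exact h.sub_odd odd_one
    rw [if_pos h1, if_neg h2, exp_even h]
    constructor <;> ring
  · have h1 : ¬ Even (n 0 - 0) := by simpa using h
    have h2 : Even (n 0 - 1) := h.sub_odd odd_one
    rw [if_neg h1, if_pos h2, exp_odd h]
    constructor <;> ring

lemma sums_eq (α : Fin (m + 1) → ℕ) (hα : ∑ i, α i ≤ m) :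
    ∑' n : Fin (m + 1) → ℤ, (∏ i, (n i : ℂ) ^ α i) * wt (uu m) (BB m) n = ∑' n, part 0 α n ∧
    ∑' n : Fin (m + 1) → ℤ, (∏ i, (n i : ℂ) ^ α i) * wt (uu' m) (BB m) n = ∑' n, part 0 α n := by
  constructor
  · rw [tsum_congr fun n => (term_eq α n).1, (summable_part 0 α).tsum_add (summable_part 1 α),
      tsum_part_one α hα, add_zero]
  · rw [tsum_congr fun n => (term_eq α n).2, (summable_part 0 α).tsum_sub (summable_part 1 α),
      tsum_part_one α hα, sub_zero]

lemma theta_eq : theta (uu m) (BB m) = (∑' z : ℤ, psi 0 z) ^ (m + 1) ∧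
    theta (uu' m) (BB m) = (∑' z : ℤ, psi 0 z) ^ (m + 1) := by
  have h := sums_eq (m := m) 0 (by simp)
  have h1 : ∑' n, part (m := m) 0 0 n = (∑' z : ℤ, psi 0 z) ^ (m + 1) := by
    rw [tsum_par 0 _ (fun n hn => by rw [part, if_neg hn])]
    have h2 : ∀ z : Fin (m + 1) → ℤ, part 0 0 (par 0 z) = ∏ i, psi 0 (z i) := by
      intro z
      rw [part_par, PP_eval]
      simp
    rw [tsum_congr h2, tsum_prod (fun _ z => psi 0 z) (fun _ => by simpa using summable_psi 0 0)]
    simp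
  simp only [Pi.zero_apply, pow_zero, Finset.prod_const_one, one_mul] at h
  exact ⟨h.1.trans h1, h.2.trans h1⟩

lemma psi_zero_neg (z : ℤ) : psi 0 (-z) = psi 0 z := by
  unfold psi gg
  have h1 : (Real.pi * I * (((-z : ℤ) : ℂ) + (0 : ℤ) / 2) - Real.pi * (((-z : ℤ) : ℂ) + (0 : ℤ) / 2) ^ 2) =
      (Real.pi * I * ((z : ℂ) + (0 : ℤ) / 2) - Real.pi * ((z : ℂ) + (0 : ℤ) / 2) ^ 2) +
        Real.pi * I * ((-2 * z : ℤ) : ℂ) := by
    push_cast; ring
  rw [h1, Complex.exp_add, exp_even ⟨-z, by ring⟩, mul_one]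

lemma tsum_psi_zero_ne : ∑' z : ℤ, psi 0 z ≠ 0 := by
  have hs : Summable fun z : ℤ => psi 0 z := by
    have := (summable_psi 0 0).of_norm
    simpa using this
  rw [tsum_int_eq_zero_add_two_mul_tsum_pnat psi_zero_neg hs,
    tsum_pnat_eq_tsum_succ (f := fun k : ℕ => psi 0 (k : ℤ))]
  have h0 : psi 0 0 = 1 := by simp [psi, gg]
  rw [h0]
  set r : ℝ := Real.exp (-Real.pi) with hr
  have hr0 : 0 < r := Real.exp_pos _
  have hr3 : r < 1 / 4 := by
    rw [hr, Real.exp_neg]
    have h1 : 4 < Real.exp Real.pi := by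
      have := Real.add_one_le_exp Real.pi
      linarith [Real.pi_gt_three]
    rw [inv_lt_comm₀ (Real.exp_pos _) (by norm_num)]
    simpa using h1
  have hb : ‖∑' k : ℕ, psi 0 ((k + 1 : ℕ) : ℤ)‖ ≤ r * (1 - r)⁻¹ := by
    refine tsum_of_norm_bounded ((hasSum_geometric_of_lt_one hr0.le (by linarith)).mul_left r) fun k => ?_
    rw [norm_psi, hr, ← Real.exp_nat_mul, ← Real.exp_add]
    apply Real.exp_le_exp.2
    push_cast
    have : (0 : ℝ) ≤ k := by positivity
    nlinarith [Real.pi_pos, mul_nonneg Real.pi_pos.le (mul_nonneg this this), mul_nonneg Real.pi_pos.le this]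
  intro h
  have h1 : (1 : ℂ) = - (2 * ∑' k : ℕ, psi 0 ((k + 1 : ℕ) : ℤ)) := by
    linear_combination h
  have h2 := congrArg norm h1
  rw [norm_neg, norm_mul, norm_one, Complex.norm_ofNat] at h2
  have h3 : r * (1 - r)⁻¹ < 1 / 2 := by
    rw [← div_eq_mul_inv, div_lt_iff₀ (by linarith)]
    linarith
  linarith

theorem main (m : ℕ) : IsParam (BB m) ∧ theta (uu m) (BB m) ≠ 0 ∧ theta (uu' m) (BB m) ≠ 0 ∧
    (∀ α : Fin (m + 1) → ℕ, ∑ i, α i ≤ m → moment (uu m) (BB m) α = moment (uu' m) (BB m) α) ∧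
    gauss (uu m) (BB m) ≠ gauss (uu' m) (BB m) := by
  have ht := theta_eq (m := m)
  have h0 := pow_ne_zero (m + 1) tsum_psi_zero_ne
  refine ⟨isParam_BB, by rw [ht.1]; exact h0, by rw [ht.2]; exact h0, fun α hα => ?_, fun h => ?_⟩
  · have h := sums_eq α hα
    unfold moment gauss
    simp only [mul_div_assoc', ht.1, ht.2, tsum_div_const]
    rw [h.1, h.2]
  · have h1 := congrFun h (fun i => if i = 0 then 1 else 0)
    unfold gauss at h1
    rw [ht.1, ht.2, wt'_eq] at h1
    simp only [if_true] at h1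
    rw [exp_odd odd_one, neg_one_mul, neg_div] at h1
    have h2 : wt (uu m) (BB m) (fun i => if i = 0 then 1 else 0) / (∑' z : ℤ, psi 0 z) ^ (m + 1) ≠ 0 :=
      div_ne_zero (Complex.exp_ne_zero _) h0
    have h3 : (2 : ℂ) * (wt (uu m) (BB m) (fun i => if i = 0 then 1 else 0) /
        (∑' z : ℤ, psi 0 z) ^ (m + 1)) = 0 := by linear_combination h1
    rcases mul_eq_zero.1 h3 with h4 | h4
    · norm_num at h4
    · exact h2 h4

end Pool.Agent.Q60.DG
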