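import Pool.Agent.Q60.DG.Prod
import Mathlib.Topology.Algebra.InfiniteSum.NatInt
import Mathlib.Analysis.SpecificLimits.Normed
import Mathlib.Analysis.Normed.Group.FunctionSeries
import Mathlib.Topology.Order.IntermediateValue

set_option autoImplicit false

open Complex

namespace Pool.Agent.Q60.DG

lemma sq_le_geom (k : ℕ) : ((k + 4 : ℕ) : ℝ) ^ 2 ≤ 16 * (25 / 16) ^ k := by
  induction k with
  | zero => norm_num
  | succ k ih =>
    have h1 : ((k + 1 + 4 : ℕ) : ℝ) ^ 2 ≤ 25 / 16 * ((k + 4 : ℕ) : ℝ) ^ 2 := by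
      push_cast
      have : (0 : ℝ) ≤ k := by positivity
      nlinarith
    calc ((k + 1 + 4 : ℕ) : ℝ) ^ 2 ≤ 25 / 16 * ((k + 4 : ℕ) : ℝ) ^ 2 := h1
      _ ≤ 25 / 16 * (16 * (25 / 16) ^ k) := by linarith
      _ = _ := by ring

/-- the tail of the series -/
lemma tail_bound {m : ℕ} (hm : m ≤ 2) {q : ℂ} (hq : ‖q‖ ^ 4 ≤ 4 / 25) :
    ‖∑' k : ℕ, ((k + 4 : ℕ) : ℂ) ^ m * q ^ ((k + 4) ^ 2)‖ ≤ 1 / 70 := by
  have h0 : 0 ≤ ‖q‖ := norm_nonneg q
  have h1 : ‖q‖ ≤ 1 := by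
    by_contra h
    push Not at h
    have : 1 ≤ ‖q‖ ^ 4 := one_le_pow₀ h.le
    linarith
  have hs : HasSum (fun k : ℕ => (16 * (4 / 25 : ℝ) ^ 4) * (1 / 4) ^ k) ((16 * (4 / 25 : ℝ) ^ 4) * (1 - 1 / 4)⁻¹) :=
    (hasSum_geometric_of_lt_one (by norm_num) (by norm_num)).mul_left _
  refine (tsum_of_norm_bounded hs fun k => ?_).trans (by norm_num)
  rw [norm_mul, norm_pow, norm_pow, Complex.norm_natCast]
  have h2 : ((k + 4 : ℕ) : ℝ) ^ m ≤ ((k + 4 : ℕ) : ℝ) ^ 2 :=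
    pow_le_pow_right₀ (by push_cast; linarith [(Nat.cast_nonneg k : (0 : ℝ) ≤ k)]) hm
  have h3 : ‖q‖ ^ ((k + 4) ^ 2) ≤ ‖q‖ ^ (4 * (k + 4)) :=
    pow_le_pow_of_le_one h0 h1 (by nlinarith)
  have h4 : ‖q‖ ^ (4 * (k + 4)) ≤ (4 / 25) ^ (k + 4) := by
    rw [pow_mul]
    exact pow_le_pow_left₀ (by positivity) hq _
  calc ((k + 4 : ℕ) : ℝ) ^ m * ‖q‖ ^ ((k + 4) ^ 2) ≤ (16 * (25 / 16) ^ k) * (4 / 25) ^ (k + 4) :=
        mul_le_mul (h2.trans (sq_le_geom k)) (h3.trans h4) (by positivity) (by positivity)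
    _ = (16 * (4 / 25 : ℝ) ^ 4) * ((25 / 16) ^ k * (4 / 25) ^ k) := by ring
    _ = _ := by rw [← mul_pow]; norm_num

/-- an approximation of `A m q` -/
lemma A_approx {m : ℕ} (hm : m ≤ 2) (hev : Even m) {q : ℂ} (hq : ‖q‖ ^ 4 ≤ 4 / 25) (hq1 : ‖q‖ < 1) :
    ∃ E : ℂ, ‖E‖ ≤ 1 / 35 ∧
      A m q = (0 : ℂ) ^ m + 2 * q + 2 * 2 ^ m * q ^ 4 + 2 * 3 ^ m * q ^ 9 + E := by
  refine ⟨2 * ∑' k : ℕ, ((k + 4 : ℕ) : ℂ) ^ m * q ^ ((k + 4) ^ 2), ?_, ?_⟩
  · rw [norm_mul, Complex.norm_ofNat]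
    have := tail_bound hm hq
    linarith
  · have hs : Summable fun k : ℤ => (k : ℂ) ^ m * q ^ (k.natAbs ^ 2) := (summable_A m hq1).of_norm
    have hsn : Summable fun k : ℕ => (k : ℂ) ^ m * q ^ (k ^ 2) := by
      have := (summable_nat m (norm_nonneg q) hq1)
      apply Summable.of_norm
      refine this.congr fun k => ?_
      rw [norm_mul, norm_pow, norm_pow, Complex.norm_natCast]
    have h1 : A m q = (0 : ℂ) ^ m + 2 * ∑' k : ℕ, ((k + 1 : ℕ) : ℂ) ^ m * q ^ ((k + 1) ^ 2) := by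
      unfold A
      rw [tsum_int_eq_zero_add_two_mul_tsum_pnat (fun n => by simp [hev.neg_pow]) hs]
      rw [tsum_pnat_eq_tsum_succ (f := fun k : ℕ => ((k : ℤ) : ℂ) ^ m * q ^ ((k : ℤ).natAbs ^ 2))]
      simp only [Int.natAbs_natCast, Int.cast_natCast]
      simp
    have h2 : ∑' k : ℕ, ((k + 1 : ℕ) : ℂ) ^ m * q ^ ((k + 1) ^ 2) =
        q + 2 ^ m * q ^ 4 + 3 ^ m * q ^ 9 + ∑' k : ℕ, ((k + 4 : ℕ) : ℂ) ^ m * q ^ ((k + 4) ^ 2) := by
      set F : ℕ → ℂ := fun k : ℕ => (k : ℂ) ^ m * q ^ (k ^ 2) with hF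
      have hs1 : Summable fun k : ℕ => F (k + 1) := (summable_nat_add_iff 1).2 hsn
      have h3 := hs1.sum_add_tsum_nat_add 3
      have h4 : ∑ i ∈ Finset.range 3, F (i + 1) = q + 2 ^ m * q ^ 4 + 3 ^ m * q ^ 9 := by
        simp only [Finset.sum_range_succ, Finset.sum_range_zero, hF]
        norm_num
      rw [h4] at h3
      exact h3.symm
    rw [h1, h2]
    ring

/-- the path -/
noncomputable def qq (t : ℝ) : ℂ := ⟨t / 5, 3 * t / 5⟩

lemma qq_eq (t : ℝ) : qq t = t * ⟨1 / 5, 3 / 5⟩ := by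
  apply Complex.ext <;> simp [qq] <;> ring

lemma norm_qq (t : ℝ) : ‖qq t‖ ^ 2 = 2 / 5 * t ^ 2 := by
  rw [← Complex.normSq_eq_norm_sq, Complex.normSq_apply]
  simp only [qq]
  ring

lemma norm_qq_four {t : ℝ} (h0 : 0 ≤ t) (h1 : t ≤ 1) : ‖qq t‖ ^ 4 ≤ 4 / 25 := by
  have h := norm_qq t
  have h2 : t ^ 2 ≤ 1 := by nlinarith
  have h3 : ‖qq t‖ ^ 2 ≤ 2 / 5 := by rw [h]; linarith
  calc ‖qq t‖ ^ 4 = (‖qq t‖ ^ 2) ^ 2 := by ring
    _ ≤ (2 / 5) ^ 2 := pow_le_pow_left₀ (by positivity) h3 2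
    _ = _ := by norm_num

lemma norm_qq_le {t : ℝ} (h0 : 0 ≤ t) (h1 : t ≤ 1) : ‖qq t‖ ≤ 2 / 3 := by
  have h := norm_qq t
  have h2 : t ^ 2 ≤ 1 := by nlinarith
  by_contra h3
  push Not at h3
  nlinarith [norm_nonneg (qq t)]

lemma qq_four (t : ℝ) : qq t ^ 4 = ⟨28 / 625 * t ^ 4, -(96 / 625) * t ^ 4⟩ := by
  have h2 : qq t ^ 2 = ⟨-(8 / 25) * t ^ 2, 6 / 25 * t ^ 2⟩ := by
    rw [sq]
    apply Complex.ext <;> simp [qq] <;> ring
  have : qq t ^ 4 = qq t ^ 2 * qq t ^ 2 := by ring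
  rw [this, h2]
  apply Complex.ext <;> simp <;> ring

lemma qq_nine (t : ℝ) : qq t ^ 9 = ⟨7696 / 1953125 * t ^ 9, -(30672 / 1953125) * t ^ 9⟩ := by
  have : qq t ^ 9 = qq t ^ 4 * qq t ^ 4 * qq t := by ring
  rw [this, qq_four]
  apply Complex.ext <;> simp [qq] <;> ring

lemma A_re_im {m : ℕ} (hm : m ≤ 2) (hev : Even m) {t : ℝ} (h0 : 0 ≤ t) (h1 : t ≤ 1) :
    |(A m (qq t)).re - ((0 : ℝ) ^ m + 2 * t / 5 + 2 * 2 ^ m * (28 / 625) * t ^ 4 +
      2 * 3 ^ m * (7696 / 1953125) * t ^ 9)| ≤ 1 / 35 ∧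
    |(A m (qq t)).im - (6 * t / 5 - 2 * 2 ^ m * (96 / 625) * t ^ 4 -
      2 * 3 ^ m * (30672 / 1953125) * t ^ 9)| ≤ 1 / 35 := by
  obtain ⟨E, hE, hA⟩ := A_approx hm hev (norm_qq_four h0 h1)
    (lt_of_le_of_lt (norm_qq_le h0 h1) (by norm_num))
  rw [hA, qq_four, qq_nine]
  have e1 : (2 * 2 ^ m : ℂ) = ((2 * 2 ^ m : ℝ) : ℂ) := by push_cast; rfl
  have e2 : (2 * 3 ^ m : ℂ) = ((2 * 3 ^ m : ℝ) : ℂ) := by push_cast; rfl
  have e3 : (0 : ℂ) ^ m = ((0 ^ m : ℝ) : ℂ) := by push_cast; rfl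
  have e4 : (2 : ℂ) * qq t = ((2 : ℝ) : ℂ) * qq t := by push_cast; rfl
  rw [e1, e2, e3, e4]
  constructor
  · refine le_trans (le_of_eq ?_) ((abs_re_le_norm E).trans hE)
    congr 1
    simp only [Complex.add_re, Complex.re_ofReal_mul, Complex.ofReal_re, qq]
    ring
  · refine le_trans (le_of_eq ?_) ((abs_im_le_norm E).trans hE)
    congr 1
    simp only [Complex.add_im, Complex.im_ofReal_mul, Complex.ofReal_im, qq]
    ring

lemma A_zero_re_pos {t : ℝ} (h0 : 0 ≤ t) (h1 : t ≤ 1) : 0 < (A 0 (qq t)).re := by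
  have h := (A_re_im (m := 0) (by norm_num) (by decide) h0 h1).1
  rw [abs_le] at h
  have h4 : 0 ≤ t ^ 4 := by positivity
  have h9 : 0 ≤ t ^ 9 := by positivity
  have := h.1
  norm_num at this
  linarith

/-- the imaginary part of `A 2 / A 0` up to a positive factor -/
noncomputable def hh (t : ℝ) : ℝ := (A 2 (qq t)).im * (A 0 (qq t)).re - (A 2 (qq t)).re * (A 0 (qq t)).im

lemma hh_one : hh 1 < 0 := by
  have h0 := A_re_im (m := 0) (by norm_num) (by decide) (t := 1) (by norm_num) (by norm_num)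
  have h2 := A_re_im (m := 2) (by norm_num) (by decide) (t := 1) (by norm_num) (by norm_num)
  obtain ⟨a1, a2⟩ := h0
  obtain ⟨b1, b2⟩ := h2
  rw [abs_le] at a1 a2 b1 b2
  norm_num at a1 a2 b1 b2
  have c1 : (1.4 : ℝ) < (A 0 (qq 1)).re := by linarith [a1.1]
  have c2 : (0.8 : ℝ) < (A 0 (qq 1)).im := by linarith [a2.1]
  have c3 : (0.7 : ℝ) < (A 2 (qq 1)).re := by linarith [b1.1]
  have c4 : (A 2 (qq 1)).im < -0.2 := by linarith [b2.2]
  unfold hh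
  nlinarith

lemma hh_small : 0 < hh (1 / 5) := by
  have h0 := A_re_im (m := 0) (by norm_num) (by decide) (t := 1 / 5) (by norm_num) (by norm_num)
  have h2 := A_re_im (m := 2) (by norm_num) (by decide) (t := 1 / 5) (by norm_num) (by norm_num)
  obtain ⟨a1, a2⟩ := h0
  obtain ⟨b1, b2⟩ := h2
  rw [abs_le] at a1 a2 b1 b2
  norm_num at a1 a2 b1 b2
  have c1 : (1 : ℝ) < (A 0 (qq (1 / 5))).re := by norm_num; linarith [a1.1]
  have c2 : (A 0 (qq (1 / 5))).im < 0.3 := by norm_num; linarith [a2.2]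
  have c2' : 0 < (A 0 (qq (1 / 5))).im := by norm_num; linarith [a2.1]
  have c3 : (A 2 (qq (1 / 5))).re < 0.12 := by norm_num; linarith [b1.2]
  have c3' : 0 < (A 2 (qq (1 / 5))).re := by norm_num; linarith [b1.1]
  have c4 : 0.2 < (A 2 (qq (1 / 5))).im := by norm_num; linarith [b2.1]
  unfold hh
  nlinarith

lemma continuousOn_A (m : ℕ) : ContinuousOn (fun t : ℝ => A m (qq t)) (Set.Icc 0 1) := by
  unfold A
  have hc : Continuous qq := by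
    have : qq = fun t : ℝ => (t : ℂ) * ⟨1 / 5, 3 / 5⟩ := funext qq_eq
    rw [this]
    exact Complex.continuous_ofReal.mul continuous_const
  refine continuousOn_tsum (u := fun k : ℤ => |(k : ℝ)| ^ m * (2 / 3) ^ (k.natAbs ^ 2)) ?_
    (summable_int m (by norm_num) (by norm_num)) ?_
  · intro k
    exact (continuous_const.mul (hc.pow _)).continuousOn
  · intro k t ht
    rw [norm_mul, norm_pow, norm_pow, Complex.norm_intCast]
    exact mul_le_mul_of_nonneg_left (pow_le_pow_left₀ (norm_nonneg _) (norm_qq_le ht.1 ht.2) _)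
      (by positivity)

lemma exists_zero : ∃ t ∈ Set.Icc (1 / 5 : ℝ) 1, hh t = 0 := by
  have hc : ContinuousOn hh (Set.Icc (1 / 5) 1) := by
    have hsub : Set.Icc (1 / 5 : ℝ) 1 ⊆ Set.Icc 0 1 := Set.Icc_subset_Icc (by norm_num) le_rfl
    have h0 := (continuousOn_A 0).mono hsub
    have h2 := (continuousOn_A 2).mono hsub
    exact ((Complex.continuous_im.comp_continuousOn h2).mul
      (Complex.continuous_re.comp_continuousOn h0)).sub
      ((Complex.continuous_re.comp_continuousOn h2).mul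
      (Complex.continuous_im.comp_continuousOn h0))
  have := intermediate_value_Icc' (by norm_num : (1 / 5 : ℝ) ≤ 1) hc
  obtain ⟨t, ht, h⟩ := this ⟨hh_one.le, hh_small.le⟩
  exact ⟨t, ht, h⟩

/-- there is a non-real `q` in the unit disc with `A 0 q ≠ 0` such that `A 2 q / A 0 q` is real -/
lemma exists_q : ∃ q : ℂ, q ≠ 0 ∧ ‖q‖ < 1 ∧ q.im ≠ 0 ∧ A 0 q ≠ 0 ∧
    (starRingEnd ℂ) (A 2 q / A 0 q) = A 2 q / A 0 q := by
  obtain ⟨t, ht, h⟩ := exists_zero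
  have h0 : 0 ≤ t := le_trans (by norm_num) ht.1
  have ht5 : 0 < t := lt_of_lt_of_le (by norm_num) ht.1
  have hpos := A_zero_re_pos h0 ht.2
  have hA : A 0 (qq t) ≠ 0 := by
    intro hz
    rw [hz] at hpos
    simp at hpos
  have him : (qq t).im ≠ 0 := by
    show 3 * t / 5 ≠ 0
    positivity
  refine ⟨qq t, ?_, lt_of_le_of_lt (norm_qq_le h0 ht.2) (by norm_num), him, hA, ?_⟩
  · intro hz
    rw [hz] at him
    simp at him
  · rw [Complex.conj_eq_iff_im, Complex.div_im]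
    unfold hh at h
    rw [← sub_div, h, zero_div]

end Pool.Agent.Q60.DG
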