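import Pool.Agent.Q60.DG.Defs
import Mathlib.Topology.Algebra.InfiniteSum.Ring
import Mathlib.Analysis.Normed.Ring.InfiniteSum
import Mathlib.Analysis.Normed.Group.InfiniteSum
import Mathlib.Algebra.BigOperators.Fin
import Mathlib.Tactic

set_option autoImplicit false

open Complex

namespace Pool.Agent.Q60.DG

/-- products of a summable function -/
lemma summable_prod_pi {g : ℕ} {f : Fin g → ℤ → ℝ} (h0 : ∀ i n, 0 ≤ f i n) (hf : ∀ i, Summable (f i)) :
    Summable fun n : Fin g → ℤ => ∏ i, f i (n i) := by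
  classical
  refine summable_of_sum_le (c := ∏ i, ∑' n, f i n)
    (fun n => Finset.prod_nonneg fun i _ => h0 i _) fun s => ?_
  set t : Fin g → Finset ℤ := fun i => s.image fun n => n i
  have hsub : s ⊆ Fintype.piFinset t := by
    intro n hn
    rw [Fintype.mem_piFinset]
    intro i
    exact Finset.mem_image_of_mem _ hn
  calc ∑ n ∈ s, ∏ i, f i (n i) ≤ ∑ n ∈ Fintype.piFinset t, ∏ i, f i (n i) :=
        Finset.sum_le_sum_of_subset_of_nonneg hsub fun n _ _ => Finset.prod_nonneg fun i _ => h0 i _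
    _ = ∏ i, ∑ j ∈ t i, f i j := (Finset.prod_univ_sum t f).symm
    _ ≤ ∏ i, ∑' n, f i n := by
        apply Finset.prod_le_prod
        · intro i _
          exact Finset.sum_nonneg fun j _ => h0 i j
        · intro i _
          exact (hf i).sum_le_tsum _ fun j _ => h0 i j

lemma summable_norm_prod {g : ℕ} (f : Fin g → ℤ → ℂ) (hf : ∀ i, Summable fun k => ‖f i k‖) :
    Summable fun n : Fin g → ℤ => ‖∏ i, f i (n i)‖ := by
  have h := summable_prod_pi (f := fun i k => ‖f i k‖) (fun _ _ => norm_nonneg _) hf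
  refine h.congr fun n => ?_
  rw [norm_prod]

/-- a sum over `ℤ^g` of products -/
lemma tsum_prod {g : ℕ} (f : Fin g → ℤ → ℂ) (hf : ∀ i, Summable fun k => ‖f i k‖) :
    ∑' n : Fin g → ℤ, ∏ i, f i (n i) = ∏ i, ∑' k, f i k := by
  induction g with
  | zero =>
    rw [tsum_fintype]
    simp
  | succ g ih =>
    have h2 := ih (fun i => f i.succ) (fun i => hf i.succ)
    have h1 := summable_norm_prod (fun i => f i.succ) (fun i => hf i.succ)
    set P : (Fin g → ℤ) → ℂ := fun n => ∏ i : Fin g, f i.succ (n i) with hP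
    have hE : ∀ p : ℤ × (Fin g → ℤ), ∏ i, f i ((Fin.consEquiv (fun _ => ℤ)) p i) = f 0 p.1 * P p.2 := by
      rintro ⟨a, n⟩
      rw [Fin.prod_univ_succ]
      rfl
    rw [← (Fin.consEquiv (fun _ : Fin (g + 1) => ℤ)).tsum_eq, Fin.prod_univ_succ, ← h2,
        tsum_mul_tsum_of_summable_norm (hf 0) h1]
    exact tsum_congr hE

/-- `∑ k^m q^(k²)` -/
noncomputable def A (m : ℕ) (q : ℂ) : ℂ := ∑' k : ℤ, (k : ℂ) ^ m * q ^ (k.natAbs ^ 2)

lemma summable_nat (m : ℕ) {r : ℝ} (h0 : 0 ≤ r) (h1 : r < 1) :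
    Summable fun k : ℕ => (k : ℝ) ^ m * r ^ (k ^ 2) := by
  have h2 : Summable fun k : ℕ => (k : ℝ) ^ m * r ^ k :=
    summable_pow_mul_geometric_of_norm_lt_one m (by rwa [Real.norm_of_nonneg h0])
  refine Summable.of_nonneg_of_le (fun k => by positivity) (fun k => ?_) h2
  refine mul_le_mul_of_nonneg_left (pow_le_pow_of_le_one h0 h1.le ?_) (by positivity)
  rw [sq]
  exact Nat.le_mul_self k

lemma summable_int (m : ℕ) {r : ℝ} (h0 : 0 ≤ r) (h1 : r < 1) :
    Summable fun k : ℤ => |(k : ℝ)| ^ m * r ^ (k.natAbs ^ 2) := by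
  apply Summable.of_nat_of_neg
  · simpa using summable_nat m h0 h1
  · simpa using summable_nat m h0 h1

lemma summable_A (m : ℕ) {q : ℂ} (h1 : ‖q‖ < 1) :
    Summable fun k : ℤ => ‖(k : ℂ) ^ m * q ^ (k.natAbs ^ 2)‖ := by
  have := summable_int m (norm_nonneg q) h1
  convert this using 2 with k
  rw [norm_mul, norm_pow, norm_pow, Complex.norm_intCast]

lemma A_odd (m : ℕ) (hm : Odd m) (q : ℂ) : A m q = 0 := by
  have h : A m q = - A m q := by
    conv_lhs => rw [A, ← (Equiv.neg ℤ).tsum_eq]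
    rw [A, ← tsum_neg]
    refine tsum_congr fun k => ?_
    simp [hm.neg_pow]
  have h2 : (2 : ℂ) * A m q = 0 := by linear_combination h
  simpa using h2

lemma A_conj (m : ℕ) (q : ℂ) : A m ((starRingEnd ℂ) q) = (starRingEnd ℂ) (A m q) := by
  rw [A, A, Complex.conj_tsum]
  refine tsum_congr fun k => ?_
  simp

variable {g : ℕ}

/-- the parameter `β` times the unit matrix -/
noncomputable def Bmat (g : ℕ) (β : ℂ) : Matrix (Fin g) (Fin g) ℂ := Matrix.diagonal fun _ => β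

lemma isParam_Bmat {β : ℂ} (hβ : 0 < β.re) : IsParam (Bmat g β) := by
  refine ⟨Matrix.diagonal_transpose _, fun x hx => ?_⟩
  have : ∑ i, ∑ j, x i * (Bmat g β i j).re * x j = β.re * ∑ i, x i ^ 2 := by
    rw [Finset.mul_sum]
    refine Finset.sum_congr rfl fun i _ => ?_
    rw [Finset.sum_eq_single i]
    · rw [Bmat, Matrix.diagonal_apply_eq]; ring
    · intro j _ hj
      rw [Bmat, Matrix.diagonal_apply_ne _ (Ne.symm hj)]; simp
    · simp
  rw [this]
  apply mul_pos hβ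
  obtain ⟨i, hi⟩ := Function.ne_iff.1 hx
  exact Finset.sum_pos' (fun i _ => sq_nonneg _) ⟨i, Finset.mem_univ _, by
    have : x i ≠ 0 := hi
    positivity⟩

lemma wt_Bmat (β : ℂ) (n : Fin g → ℤ) :
    wt 0 (Bmat g β) n = ∏ i, (cexp (-Real.pi * β)) ^ ((n i).natAbs ^ 2) := by
  have h1 : ∑ i, ∑ j, (n i : ℂ) * Bmat g β i j * (n j : ℂ) = ∑ i, (n i : ℂ) ^ 2 * β := by
    refine Finset.sum_congr rfl fun i _ => ?_
    rw [Finset.sum_eq_single i]
    · rw [Bmat, Matrix.diagonal_apply_eq]; ring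
    · intro j _ hj
      rw [Bmat, Matrix.diagonal_apply_ne _ (Ne.symm hj)]; simp
    · simp
  rw [wt, h1]
  simp only [Pi.zero_apply, mul_zero, Finset.sum_const_zero, zero_sub]
  have h2 : ∀ k : ℤ, (cexp (-Real.pi * β)) ^ (k.natAbs ^ 2) = cexp (-Real.pi * β * (k : ℂ) ^ 2) := by
    intro k
    rw [← Complex.exp_nat_mul]
    congr 1
    have : ((k.natAbs ^ 2 : ℕ) : ℂ) = (k : ℂ) ^ 2 := by
      have h4 := congrArg (Int.cast : ℤ → ℂ) (Int.natAbs_sq k)
      rw [Int.cast_pow, Int.cast_pow, Int.cast_natCast] at h4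
      rw [Nat.cast_pow]
      exact h4
    rw [this]
    ring
  simp only [h2]
  rw [← Complex.exp_sum, ← Finset.mul_sum]
  congr 1
  rw [← Finset.sum_mul]
  ring

lemma theta_Bmat {β : ℂ} (hβ : ‖cexp (-Real.pi * β)‖ < 1) :
    theta 0 (Bmat g β) = (A 0 (cexp (-Real.pi * β))) ^ g := by
  have h := tsum_prod (g := g) (fun _ k => (k : ℂ) ^ 0 * (cexp (-Real.pi * β)) ^ (k.natAbs ^ 2))
    (fun _ => summable_A 0 hβ)
  rw [Finset.prod_const, Finset.card_univ, Fintype.card_fin] at h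
  rw [theta, A, ← h]
  refine tsum_congr fun n => ?_
  rw [wt_Bmat]
  simp

lemma moment_Bmat {β : ℂ} (hβ : ‖cexp (-Real.pi * β)‖ < 1) (α : Fin g → ℕ) :
    moment 0 (Bmat g β) α = ∏ i, (A (α i) (cexp (-Real.pi * β)) / A 0 (cexp (-Real.pi * β))) := by
  have h := tsum_prod (g := g)
    (fun i k => (k : ℂ) ^ α i * (cexp (-Real.pi * β)) ^ (k.natAbs ^ 2))
    (fun i => summable_A (α i) hβ)
  rw [Finset.prod_div_distrib, Finset.prod_const, Finset.card_univ, Fintype.card_fin, moment,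
    ← theta_Bmat hβ]
  unfold A
  rw [← h, div_eq_mul_inv, ← tsum_mul_right]
  refine tsum_congr fun n => ?_
  rw [gauss, wt_Bmat, Finset.prod_mul_distrib]
  ring

end Pool.Agent.Q60.DG
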